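import Mathlib
import Pool.Agent.Helper351.LE.T3

/-!
Nilpotent groups generated by `d` left 3-Engel elements: the class is bounded by a function of `d`
up to torsion of exponent bounded by a function of `d`.
-/

set_option autoImplicit false

namespace Pool.Agent.Results.MP_0fdb00_al.UpToFewPrimes

/-- There are functions `f` and `e ≥ 1` such that for every `d` and every nilpotent group `G`
generated by `d` left 3-Engel elements: all factors of the lower central series from the index
`f d` on have exponent dividing `e d`, and if `G` has no nontrivial element `x` with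
`x ^ e d = 1`, then the upper central series of `G` reaches `G` by step `f d`. -/
theorem result :
    ∃ f e : ℕ → ℕ, (∀ d, 0 < e d) ∧
      ∀ (d : ℕ) (G : Type) [Group G] (g : Fin d → G),
        Group.IsNilpotent G →
        Subgroup.closure (Set.range g) = ⊤ →
        (∀ i : Fin d, ∀ x : G, (fun y : G => y⁻¹ * (g i)⁻¹ * y * g i)^[3] x = 1) →
        (∀ k, f d ≤ k → ∀ x ∈ Subgroup.lowerCentralSeries (⊤ : Subgroup G) k,
          x ^ e d ∈ Subgroup.lowerCentralSeries (⊤ : Subgroup G) (k + 1)) ∧
        ((∀ x : G, x ^ e d = 1 → x = 1) → upperCentralSeries G (f d) = ⊤) := by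
  choose c e he h using fun d : ℕ => Pool.Agent.Helper351.LE.uniform_exp 3 d (by norm_num)
  refine ⟨c, e, he, ?_⟩
  intro d G _ g hnil hcl hE
  haveI := hnil
  obtain ⟨h1, h2⟩ := h d G g hcl hE
  refine ⟨h1, fun htf => ?_⟩
  have h3 := h2 htf
  have h4 : Group.nilpotencyClass G ≤ c d :=
    Subgroup.lowerCentralSeries_eq_bot_iff_nilpotencyClass_le.1 h3
  exact Subgroup.upperCentralSeries_eq_top_iff_nilpotencyClass_le.2 h4

end Pool.Agent.Results.MP_0fdb00_al.UpToFewPrimes
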